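import Pool.Agent.H14R3.KK.Defs

/-! Task PAIRS of project KK (MP_d47e08_pr). -/

set_option autoImplicit false
open MeasureTheory ProbabilityTheory Filter Topology

namespace KK14

theorem PAIRS (n q l : ℕ) (I : Sub n l) (F : Finset (Fin n) → ℝ) :
    (∑ K : Sub n l, if (symmDiff I.1 K.1).card = 2 * q then F K.1 else 0) =
      ∑ A ∈ I.1.powersetCard q, ∑ B ∈ (I.1ᶜ).powersetCard q, F ((I.1 \ A) ∪ B) := by
  classical
  rw [← Finset.sum_filter, ← Finset.sum_product' (f := fun A B => F ((I.1 \ A) ∪ B))]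
  have hcard : ∀ K : Sub n l, (symmDiff I.1 K.1).card = 2 * q →
      (I.1 \ K.1).card = q ∧ (K.1 \ I.1).card = q := by
    intro K hK
    have h1 : (symmDiff I.1 K.1).card = (I.1 \ K.1).card + (K.1 \ I.1).card := by
      rw [symmDiff_def, Finset.sup_eq_union, Finset.card_union_of_disjoint]
      exact disjoint_sdiff_sdiff
    have h2 := Finset.card_sdiff_add_card_inter I.1 K.1
    have h3 := Finset.card_sdiff_add_card_inter K.1 I.1
    rw [Finset.inter_comm] at h3
    have h4 := I.2
    have h5 := K.2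
    omega
  have hback : ∀ A ∈ I.1.powersetCard q, ∀ B ∈ (I.1ᶜ).powersetCard q,
      I.1 \ ((I.1 \ A) ∪ B) = A ∧ ((I.1 \ A) ∪ B) \ I.1 = B ∧ ((I.1 \ A) ∪ B).card = l := by
    intro A hA B hB
    rw [Finset.mem_powersetCard] at hA hB
    obtain ⟨hA1, hA2⟩ := hA
    obtain ⟨hB1, hB2⟩ := hB
    have hB1' : ∀ x ∈ B, x ∉ I.1 := fun x hx => Finset.mem_compl.mp (hB1 hx)
    refine ⟨?_, ?_, ?_⟩
    · ext x
      simp only [Finset.mem_sdiff, Finset.mem_union]
      constructor
      · rintro ⟨h1, h2⟩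
        by_contra h3
        exact h2 (Or.inl ⟨h1, h3⟩)
      · intro h
        refine ⟨hA1 h, ?_⟩
        rintro (⟨-, h2⟩ | h2)
        · exact h2 h
        · exact hB1' x h2 (hA1 h)
    · ext x
      simp only [Finset.mem_sdiff, Finset.mem_union]
      constructor
      · rintro ⟨⟨h1, -⟩ | h1, h2⟩
        · exact (h2 h1).elim
        · exact h1
      · intro h
        exact ⟨Or.inr h, hB1' x h⟩
    · rw [Finset.card_union_of_disjoint, Finset.card_sdiff_of_subset hA1, hA2, hB2]
      · have h4 := I.2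
        have h5 := Finset.card_le_card hA1
        omega
      · rw [Finset.disjoint_left]
        intro x hx hx2
        exact hB1' x hx2 (Finset.mem_sdiff.mp hx).1
  refine Finset.sum_bij' (fun K _ => (I.1 \ K.1, K.1 \ I.1))
    (fun p hp => ⟨(I.1 \ p.1) ∪ p.2, (hback p.1 (Finset.mem_product.mp hp).1 p.2
      (Finset.mem_product.mp hp).2).2.2⟩) ?_ ?_ ?_ ?_ ?_
  · intro K hK
    rw [Finset.mem_filter] at hK
    obtain ⟨h1, h2⟩ := hcard K hK.2
    rw [Finset.mem_product, Finset.mem_powersetCard, Finset.mem_powersetCard]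
    refine ⟨⟨Finset.sdiff_subset, h1⟩, ?_, h2⟩
    intro x hx
    exact Finset.mem_compl.mpr (Finset.mem_sdiff.mp hx).2
  · intro p hp
    obtain ⟨h1, h2, h3⟩ := hback p.1 (Finset.mem_product.mp hp).1 p.2 (Finset.mem_product.mp hp).2
    rw [Finset.mem_filter]
    refine ⟨Finset.mem_univ _, ?_⟩
    rw [symmDiff_def, Finset.sup_eq_union, Finset.card_union_of_disjoint disjoint_sdiff_sdiff]
    simp only
    rw [h1, h2]
    rw [Finset.mem_product, Finset.mem_powersetCard, Finset.mem_powersetCard] at hp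
    omega
  · intro K hK
    apply Subtype.ext
    ext x
    simp only [Finset.mem_sdiff, Finset.mem_union]
    tauto
  · intro p hp
    obtain ⟨h1, h2, h3⟩ := hback p.1 (Finset.mem_product.mp hp).1 p.2 (Finset.mem_product.mp hp).2
    simp only
    rw [h1, h2]
  · intro K hK
    simp only
    congr 1
    ext x
    simp only [Finset.mem_sdiff, Finset.mem_union]
    tauto

end KK14
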